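import Pool.Agent.Lib.MP_ddf912_lc.Pig.Main

/-! Consequences of membership in `FptPigeon`: refutations of polylogarithmic length, and
membership of the complement in `ParaNP`. -/

namespace Pool.Agent.Lib.MP_ddf912_lc.Pig

open Turing N487b59b3 N68a2faeb Pool.Agent.Lib.helper82 Hier

theorem ofB_snoc : ∀ l : Str, ofB (l ++ [true]) = 2 ^ l.length + ofB l
  | [] => rfl
  | b :: l => by
    rw [List.cons_append, ofB_cons, ofB_cons, ofB_snoc l, Nat.bit_val, Nat.bit_val,
      List.length_cons, pow_succ]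
    omega

theorem ofB_snoc_inj {l l' : Str} (h : ofB (l ++ [true]) = ofB (l' ++ [true])) : l = l' := by
  rw [ofB_snoc, ofB_snoc] at h
  have h1 := ofB_lt l
  have h2 := ofB_lt l'
  have h3 : l.length = l'.length := by
    rcases lt_trichotomy l.length l'.length with a | a | a
    · have := Nat.pow_le_pow_right (show 0 < 2 by norm_num) (show l.length + 1 ≤ l'.length from a)
      rw [pow_succ] at this
      omega
    · exact a
    · have := Nat.pow_le_pow_right (show 0 < 2 by norm_num) (show l'.length + 1 ≤ l.length from a)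
      rw [pow_succ] at this
      omega
  rw [h3] at h
  exact ofB_inj _ _ h3 (by omega)

theorem exists_colls {H : Hist → Str → Str} {m : ℕ}
    (hs : ∀ h u, u.length = m → (H h u).length < m) :
    ∀ n, ∃ h : Hist, h.length = n ∧ Colls H m h
  | 0 => ⟨[], rfl, colls_nil _ _⟩
  | n + 1 => by
    obtain ⟨h, h1, h2⟩ := exists_colls hs n
    obtain ⟨w, -, w', -, hne, he⟩ := Finset.exists_ne_map_eq_of_card_lt_of_maps_to
      (s := (Finset.univ : Finset (Fin m → Bool))) (t := Finset.Ico 1 (2 ^ m))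
      (f := fun w => ofB (H h (List.ofFn w) ++ [true])) (by simp) (by
        intro w _
        have a1 := ofB_lt (H h (List.ofFn w))
        have a2 := Nat.pow_le_pow_right (show 0 < 2 by norm_num)
          (show (H h (List.ofFn w)).length + 1 ≤ m from hs h _ (by simp))
        rw [pow_succ] at a2
        simp only [Finset.coe_Ico, Set.mem_Ico, ofB_snoc]
        omega)
    exact ⟨(List.ofFn w, List.ofFn w') :: h, by simp [h1], colls_cons.2 ⟨h2, by simp, by simp,
      fun e => hne (List.ofFn_injective e), ofB_snoc_inj he⟩⟩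

theorem sz_colls {H : Hist → Str → Str} {m : ℕ} : ∀ h : Hist, Colls H m h →
    sz h = h.length * (18 * m + 3)
  | [], _ => by simp [sz_nil]
  | (u, v) :: h, hc => by
    obtain ⟨h0, h1, h2, -⟩ := colls_cons.1 hc
    simp only at h1 h2
    rw [sz_cons, sz_prod, PT.sz_listBool, PT.sz_listBool, sz_colls h h0, h1, h2, List.length_cons]
    ring

/-- Refutations with polylogarithmically many bits, checked in fixed parameter time. -/
theorem short_refutations {A : PProb} (hA : A ∈ FptPigeon) :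
    ∃ (V : (Str × Str) × Str → Bool) (f g : ℕ → ℕ) (c : ℕ), PT V ∧ Computable f ∧ Computable g ∧
      ∀ x, (∀ p w, V ((x, p), w) = true → x ∉ A.Q) ∧ (x ∉ A.Q → ∃ w : Str,
        w.length ≤ g (A.κ x) * (Nat.log 2 x.length + 1) ^ c ∧
        V ((x, List.replicate (f (A.κ x)) true), w) = true) := by
  obtain ⟨-, H, O, f, c, -, hO, hf, h⟩ := hA
  obtain ⟨p, hp, ep⟩ : Prs Hist := Prs.list ((Prs.list Prs.bool).prod (Prs.list Prs.bool))
  have k : PT fun a : (Str × Str) × Str => p a.2 := PT.comp hp PT.snd'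
  refine ⟨fun a => O (a.1, p a.2), f, fun k => 21 * f k ^ (2 * c), 2 * c,
    PT.comp (PT.ofIsPolyTime hO) (PT.pair PT.fst' k), hf,
    computable_mul (Computable.const 21) (computable_pow hf _),
    fun x => ⟨fun _ _ => (h x).1 _ _, fun hx => ?_⟩⟩
  obtain ⟨h1, h2⟩ := (h x).2 _ _ rfl rfl
  obtain ⟨l, h3, h4⟩ := exists_colls h1 ((f (A.κ x) * (Nat.log 2 x.length + 1)) ^ c)
  refine ⟨enc l, ?_, by simpa only [ep] using h2 l h3 h4 hx⟩
  change sz l ≤ _
  rw [sz_colls l h4, h3, mul_assoc, ← mul_pow, mul_comm 2 c, pow_mul]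
  generalize (f (A.κ x) * (Nat.log 2 x.length + 1)) ^ c = m
  nlinarith [Nat.le_mul_self m]

theorem pigeon_paraNP {A : PProb} (hA : A ∈ FptPigeon) : (⟨A.Qᶜ, A.κ⟩ : PProb) ∈ ParaNP := by
  obtain ⟨V, f, g, c, hV, hf, hg, h⟩ := short_refutations hA
  obtain ⟨p, hp, ep⟩ := (Prs.list Prs.bool).prod (Prs.list Prs.bool)
  have k : PT fun a : Str × Str => p a.2 := PT.comp hp PT.snd'
  refine SP.paraNP ⟨fun a => V ((a.1, (p a.2).1), (p a.2).2), fun k => 6 * f k + 1 + 3 * g k, c,
    PT.comp hV (PT.pair (PT.pair PT.fst' (PT.fst k)) (PT.snd k)),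
    computable_add (computable_add (computable_mul (Computable.const 6) hf) (Computable.const 1))
      (computable_mul (Computable.const 3) hg), fun x w => (h x).1 _ _, fun x hx => ?_⟩ hA.1
  obtain ⟨w, h1, h2⟩ := (h x).2 hx
  refine ⟨enc (List.replicate (f (A.κ x)) true, w), ?_, by simpa only [ep] using h2⟩
  change sz (List.replicate (f (A.κ x)) true, w) ≤ _
  rw [sz_prod, PT.sz_listBool, PT.sz_listBool, List.length_replicate]
  have h3 := h1.trans (Nat.mul_le_mul_left _ (Nat.pow_le_pow_left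
    (Nat.succ_le_succ (Nat.log_le_self 2 x.length)) c))
  have h4 : 1 ≤ (x.length + 1) ^ c := Nat.one_le_pow _ _ (by omega)
  simp only [Nat.succ_eq_add_one] at h3
  nlinarith

/-- The conclusion of the earlier hand-in follows from the new one. -/
theorem old_hierarchy (d : ℕ) (hd : 2 ≤ d) (h : Below (pLogSat (d + 1)) ⊆ Below (pLogSat d)) :
    ∀ A ∈ Below (pLogSat (d + 1)), (⟨A.Qᶜ, A.κ⟩ : PProb) ∈ ParaNP :=
  fun _ hA => pigeon_paraNP (levels hd h hA)

end Pool.Agent.Lib.MP_ddf912_lc.Pig
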