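import Pool.Agent.Lib.MP_ddf912_lc.Defs

namespace Pool.Agent.Lib.MP_ddf912_lc

open N487b59b3 N68a2faeb

/-- A list of collisions, newest first: distinct `m`-bit strings with the same hash, where the
hash function may depend on the earlier collisions. -/
def Colls (H : List (List Bool × List Bool) → List Bool → List Bool) (m : ℕ)
    (h : List (List Bool × List Bool)) : Prop :=
  ∀ u v h', (u, v) :: h' <:+ h → u.length = m ∧ v.length = m ∧ u ≠ v ∧ H h' u = H h' v

/-- Fixed parameter time with polylogarithmically many adaptive collision queries on
polylogarithmically many bits: `O` never rejects a yes-instance, and it rejects every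
no-instance once it is given genuine collisions of the shortening hash `H`. -/
def FptPigeon : Set PProb :=
  {A | IsPolyTime A.κ ∧
    ∃ (H : (List Bool × List Bool) × List (List Bool × List Bool) × List Bool → List Bool)
      (O : (List Bool × List Bool) × List (List Bool × List Bool) → Bool) (f : ℕ → ℕ) (c : ℕ),
      IsPolyTime H ∧ IsPolyTime O ∧ Computable f ∧ ∀ x,
        (∀ p h, O ((x, p), h) = true → x ∉ A.Q) ∧ ∀ p m,
        p = List.replicate (f (A.κ x)) true → m = (f (A.κ x) * (Nat.log 2 x.length + 1)) ^ c →
        (∀ h u, u.length = m → (H ((x, p), h, u)).length < m) ∧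
        ∀ h, h.length = m → Colls (fun h u => H ((x, p), h, u)) m h → x ∉ A.Q →
          O ((x, p), h) = true}

end Pool.Agent.Lib.MP_ddf912_lc
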