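import Pool.Agent.Lib.MP_ddf912_lc.Hier.Main
import Pool.Agent.Lib.MP_ddf912_lc.Pig.Defs
import Pool.Agent.Lib.helper82.CookLevin

namespace Pool.Agent.Lib.MP_ddf912_lc.Pig

open Turing N487b59b3 N68a2faeb Pool.Agent.Lib.helper82 Hier

abbrev Str := List Bool
abbrev Hist := List (Str × Str)

section
variable {α β γ : Type} [Enc α] [Enc β] [Enc γ]

theorem pt_drop [Inhabited γ] {f : α → List β} {l : α → List γ} (hf : PT f) (hl : PT l) :
    PT fun a => (f a).drop (l a).length := by
  have h := PT.foldl_add (h := fun _ (s : List β) (_ : γ) => s.tail) hl hf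
    (PT.tail (PT.fst PT.snd')) (fun _ => 0) (Bd.const 0) (fun _ s _ _ => sz_tail_le s)
  refine h.congr fun a => ?_
  generalize f a = s
  induction l a generalizing s with
  | nil => simp
  | cons b l ih => simp [ih]

theorem pt_take [Inhabited β] [Inhabited γ] {f : α → List β} {l : α → List γ} (hf : PT f)
    (hl : PT l) : PT fun a => (f a).take (l a).length :=
  (PT.reverse (pt_drop (PT.reverse hf) (pt_drop hf hl))).congr fun a => by
    rw [List.length_drop, List.drop_reverse, List.reverse_reverse]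
    rcases le_total (l a).length (f a).length with h | h
    · congr 1; omega
    · rw [List.take_of_length_le h, List.take_of_length_le (by omega)]

theorem length_filter_range (n : ℕ) : ∀ L : ℕ,
    ((List.range L).filter fun i => decide (i < n)).length = min n L
  | 0 => by simp
  | L + 1 => by
    rw [List.range_succ, List.filter_append, List.length_append, length_filter_range n L]
    by_cases h : L < n
    · simp [h]; omega
    · simp [h]; omega

theorem pt_un [Inhabited β] {f : α → List β} {n : α → ℕ} (hf : PT f) (hn : PT n) :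
    PT fun a => (List.range (f a).length).filter fun i => decide (i < n a) :=
  PT.filter (P := fun a i => decide (i < n a)) (PT.range hf) (PT.lt PT.snd' (PT.comp hn PT.fst'))

theorem pt_dropN [Inhabited β] {f : α → List β} {n : α → ℕ} (hf : PT f) (hn : PT n) :
    PT fun a => (f a).drop (n a) :=
  (pt_drop hf (pt_un hf hn)).congr fun a => by
    rw [length_filter_range]
    rcases le_total (n a) (f a).length with h | h
    · rw [min_eq_left h]
    · rw [min_eq_right h, List.drop_length, List.drop_of_length_le h]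

theorem pt_takeN [Inhabited β] {f : α → List β} {n : α → ℕ} (hf : PT f) (hn : PT n) :
    PT fun a => (f a).take (n a) :=
  (pt_take hf (pt_un hf hn)).congr fun a => by
    rw [length_filter_range]
    rcases le_total (n a) (f a).length with h | h
    · rw [min_eq_left h]
    · rw [min_eq_right h, List.take_length, List.take_of_length_le h]

theorem pt_getD [Inhabited β] {f : α → List β} {n : α → ℕ} (hf : PT f) (hn : PT n) (d : β) :
    PT fun a => (f a).getD (n a) d :=
  (PT.headD (pt_dropN hf hn) d).congr fun a => by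
    simp [List.getD_eq_getElem?_getD]

end

theorem colls_nil (H : Hist → Str → Str) (m : ℕ) : Colls H m [] := fun _ _ _ h => by simp at h

theorem colls_cons {H : Hist → Str → Str} {m : ℕ} {e : Str × Str} {h : Hist} :
    Colls H m (e :: h) ↔
      Colls H m h ∧ e.1.length = m ∧ e.2.length = m ∧ e.1 ≠ e.2 ∧ H h e.1 = H h e.2 := by
  refine ⟨fun h0 => ⟨fun u v h' h1 => h0 u v h' (h1.trans (List.suffix_cons e h)),
    h0 e.1 e.2 h (List.suffix_refl _)⟩, fun h0 u v h' h1 => ?_⟩
  rcases List.suffix_cons_iff.1 h1 with h2 | h2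
  · obtain ⟨rfl, rfl⟩ := List.cons.inj h2
    exact h0.2
  · exact h0.1 u v h' h2

theorem ofB_cons (b : Bool) (l : Str) : ofB (b :: l) = Nat.bit b (ofB l) := rfl

theorem ofB_lt : ∀ l : Str, ofB l < 2 ^ l.length
  | [] => by simp [ofB]
  | b :: l => by
    have := ofB_lt l
    rw [ofB_cons, List.length_cons, pow_succ, Nat.bit_val]
    cases b <;> simp <;> omega

theorem ofB_inj : ∀ l l' : Str, l.length = l'.length → ofB l = ofB l' → l = l'
  | [], [], _, _ => rfl
  | [], _ :: _, h, _ => by simp at h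
  | _ :: _, [], h, _ => by simp at h
  | b :: l, b' :: l', h, e => by
    rw [ofB_cons, ofB_cons, Nat.bit_val, Nat.bit_val] at e
    have h1 : b = b' ∧ ofB l = ofB l' := by
      cases b <;> cases b' <;> simp at e ⊢ <;> omega
    rw [h1.1, ofB_inj l l' (by simpa using h) h1.2]

def chunk (K i : ℕ) (u : Str) : Str := (u.drop (i * K)).take K

def pos (K : ℕ) (u : Str) (i : ℕ) : ℕ := i * 2 ^ K + ofB (chunk K i u)

def enum {β : Type} (l : List β) : List (ℕ × β) := l.zipIdx.map fun p => (p.2, p.1)

def slots (T : List (List ℕ)) (K : ℕ) (F : List Node) (u : Str) : Slots :=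
  (enum T).map fun e => (e.2, F.getD (pos K u e.1) [])

def keep (B K : ℕ) (u v : Str) (i : ℕ) : Bool :=
  !decide (i ∈ (List.range B).map (pos K u)) || decide (i ∈ (List.range B).map (pos K v))

def cut (B K : ℕ) (F : List Node) (u v : Str) : List Node :=
  ((enum F).filter fun e => keep B K u v e.1).map Prod.snd

theorem mem_enum {β : Type} {l : List β} {e : ℕ × β} :
    e ∈ enum l ↔ ∃ h : e.1 < l.length, e.2 = l[e.1] := by
  obtain ⟨i, b⟩ := e
  simp only [enum, List.mem_map, Prod.mk.injEq, Prod.exists]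
  constructor
  · rintro ⟨a, k, h, rfl, rfl⟩
    have := List.mem_zipIdx' h
    exact ⟨this.1, this.2⟩
  · rintro ⟨h, e⟩
    exact ⟨l[i], i, List.mem_zipIdx_iff_getElem?.2 (by simp [h]), rfl, e.symm⟩

theorem map_snd_enum {β : Type} (l : List β) : (enum l).map Prod.snd = l := by
  simp only [enum, List.map_map]
  exact List.zipIdx_map_fst 0 l

theorem map_fst_slots (T : List (List ℕ)) (K : ℕ) (F : List Node) (u : Str) :
    (slots T K F u).map Prod.fst = T := by
  rw [slots, List.map_map]
  exact map_snd_enum T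

theorem mem_slots {T : List (List ℕ)} {K : ℕ} {F : List Node} {u : Str} {Y : Node} :
    Y ∈ (slots T K F u).map Prod.snd ↔ ∃ i < T.length, Y = F.getD (pos K u i) [] := by
  simp only [slots, List.map_map, List.mem_map, Function.comp]
  constructor
  · rintro ⟨e, he, rfl⟩
    obtain ⟨h, -⟩ := mem_enum.1 he
    exact ⟨e.1, h, rfl⟩
  · rintro ⟨i, hi, rfl⟩
    exact ⟨(i, T[i]), mem_enum.2 ⟨hi, rfl⟩, rfl⟩

theorem ofB_chunk_lt (K i : ℕ) (u : Str) : ofB (chunk K i u) < 2 ^ K :=
  (ofB_lt _).trans_le (Nat.pow_le_pow_right (by norm_num) (List.length_take_le _ _))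

theorem pos_lt {B K i : ℕ} (u : Str) (hi : i < B) : pos K u i < B * 2 ^ K := by
  have h1 := ofB_chunk_lt K i u
  have h2 := Nat.mul_le_mul_right (2 ^ K) (show i + 1 ≤ B from hi)
  rw [add_mul] at h2
  unfold pos
  omega

theorem pos_div (K i : ℕ) (u : Str) : pos K u i / 2 ^ K = i := by
  rw [pos, mul_comm, Nat.mul_add_div (by positivity), Nat.div_eq_of_lt (ofB_chunk_lt K i u),
    add_zero]

theorem take_eq_of_chunk {K : ℕ} {u v : Str} : ∀ B : ℕ, (∀ i < B, chunk K i u = chunk K i v) →
    u.take (B * K) = v.take (B * K)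
  | 0, _ => by simp
  | B + 1, h => by
    have h1 := take_eq_of_chunk B fun i hi => h i (by omega)
    have h2 := h B (by omega)
    rw [add_mul, one_mul, List.take_add, List.take_add, h1]
    exact congrArg _ h2

theorem cut_sublist (B K : ℕ) (F : List Node) (u v : Str) : (cut B K F u v).Sublist F := by
  have := (List.filter_sublist (p := fun e : ℕ × Node => keep B K u v e.1) (l := enum F)).map
    Prod.snd
  rwa [map_snd_enum] at this

theorem cut_lt {B K : ℕ} {F : List Node} {u v : Str} (hF : B * 2 ^ K ≤ F.length)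
    (hl : u.length = v.length) (hne : u ≠ v) (hd : u.drop (B * K) = v.drop (B * K)) :
    (cut B K F u v).length < F.length := by
  obtain ⟨i, hi, hc⟩ : ∃ i < B, chunk K i u ≠ chunk K i v := by
    by_contra h
    push Not at h
    apply hne
    rw [← List.take_append_drop (B * K) u, take_eq_of_chunk B h, hd, List.take_append_drop]
  have h1 : pos K u i < F.length := (pos_lt u hi).trans_le hF
  have h2 : keep B K u v (pos K u i) = false := by
    simp only [keep, Bool.or_eq_false_iff, Bool.not_eq_false', decide_eq_true_eq,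
      decide_eq_false_iff_not, List.mem_map, List.mem_range]
    refine ⟨⟨i, hi, rfl⟩, ?_⟩
    rintro ⟨i', -, e⟩
    have e1 : i' = i := by rw [← pos_div K i' v, e, pos_div]
    subst e1
    apply hc
    refine ofB_inj _ _ (by simp [chunk, hl]) ?_
    unfold pos at e
    omega
  have h3 := length_filter_lt (p := fun e : ℕ × Node => keep B K u v e.1) (q := fun _ => true)
    (by simp) (l := enum F) (v := (pos K u i, F[pos K u i])) (mem_enum.2 ⟨h1, rfl⟩) h2 rfl
  rw [List.filter_true] at h3
  rw [cut, List.length_map]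
  simpa [enum] using h3

theorem cut_yes {T : List (List ℕ)} {K : ℕ} {F : List Node} {u v : Str} {P : Node → Prop}
    (hF : T.length * 2 ^ K ≤ F.length)
    (h : (∃ Y ∈ (slots T K F u).map Prod.snd, P Y) → ∃ Y ∈ (slots T K F v).map Prod.snd, P Y) :
    (∃ Y ∈ F, P Y) → ∃ Y ∈ cut T.length K F u v, P Y := by
  rintro ⟨Y, hY, hP⟩
  obtain ⟨i, hi, rfl⟩ := List.getElem_of_mem hY
  have key : ∀ i (hi : i < F.length), keep T.length K u v i = true → P F[i] →
      ∃ Y ∈ cut T.length K F u v, P Y := fun i hi hk hP =>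
    ⟨F[i], List.mem_map.2 ⟨(i, F[i]), List.mem_filter.2 ⟨mem_enum.2 ⟨hi, rfl⟩, hk⟩, rfl⟩, hP⟩
  by_cases h1 : i ∈ (List.range T.length).map (pos K u)
  · obtain ⟨i0, h2, rfl⟩ := List.mem_map.1 h1
    obtain ⟨Y, hY, hP'⟩ := h ⟨_, mem_slots.2 ⟨i0, List.mem_range.1 h2, rfl⟩, by
      rwa [List.getD_eq_getElem _ _ hi]⟩
    obtain ⟨i1, h3, rfl⟩ := mem_slots.1 hY
    have h4 : pos K v i1 < F.length := (pos_lt v h3).trans_le hF
    rw [List.getD_eq_getElem _ _ h4] at hP'
    refine key _ h4 ?_ hP'
    simp only [keep, Bool.or_eq_true, decide_eq_true_eq]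
    exact Or.inr (List.mem_map_of_mem (List.mem_range.2 h3))
  · refine key i hi ?_ hP
    simp only [keep, Bool.or_eq_true, Bool.not_eq_true', decide_eq_false_iff_not]
    exact Or.inl h1

theorem good_slots {φ : CNF} {T : List (List ℕ)} {K : ℕ} {F : List Node} {u : Str}
    (hF : ∀ Y ∈ F, Good φ Y) : ∀ Y ∈ (slots T K F u).map Prod.snd, Good φ Y := by
  intro Y hY
  obtain ⟨i, -, rfl⟩ := mem_slots.1 hY
  by_cases h : pos K u i < F.length
  · rw [List.getD_eq_getElem _ _ h]
    exact hF _ (List.getElem_mem h)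
  · rw [List.getD_eq_default _ _ (by omega)]
    exact ⟨by simp, by simp⟩

abbrev Test := List Node → Str → Str → Bool

def stepS (B K : ℕ) (tst : Test) (s : List ℕ × List Node) (e : Str × Str) :
    List ℕ × List Node :=
  if B * 2 ^ K ≤ s.2.length then
    bif tst s.2 e.1 e.2 then (s.1, cut B K s.2 e.1 e.2) else s
  else bif s.1.isEmpty then s else (s.1.tail, s.2.flatMap fun Y =>
    [(s.1.headD 0, true) :: Y, (s.1.headD 0, false) :: Y])

def state (φ : CNF) (B K : ℕ) (tst : Test) (h : Hist) : List ℕ × List Node :=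
  h.reverse.foldl (stepS B K tst) (vars φ, [[]])

theorem state_cons (φ : CNF) (B K : ℕ) (tst : Test) (e : Str × Str) (h : Hist) :
    state φ B K tst (e :: h) = stepS B K tst (state φ B K tst h) e := by
  simp [state, List.foldl_append]

def Inv (φ : CNF) (W : ℕ) (s : List ℕ × List Node) : Prop :=
  s.1.Sublist (vars φ) ∧ s.2.length ≤ 2 * W + 1 ∧ ∀ Y ∈ s.2, Y.length + s.1.length ≤ nvars φ ∧
    (∀ l ∈ Y, l.1 ∈ vars φ) ∧ ∀ v ∈ vars φ, v ∈ s.1 ∨ ∃ c, (v, c) ∈ Y

theorem length_branch (x : ℕ) (F : List Node) :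
    (F.flatMap fun Y => [(x, true) :: Y, (x, false) :: Y]).length = 2 * F.length := by
  simp [List.length_flatMap, mul_comm]

theorem inv_step {φ : CNF} {B K : ℕ} {tst : Test} {s : List ℕ × List Node}
    (h : Inv φ (B * 2 ^ K) s) (e : Str × Str) : Inv φ (B * 2 ^ K) (stepS B K tst s e) := by
  obtain ⟨rem, F⟩ := s
  obtain ⟨h1, h2, h3⟩ := h
  unfold stepS
  split_ifs with h4
  · have h5 := cut_sublist B K F e.1 e.2
    cases tst F e.1 e.2
    · exact ⟨h1, h2, h3⟩
    · exact ⟨h1, h5.length_le.trans h2, fun Y hY => h3 Y (h5.subset hY)⟩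
  · rcases rem with _ | ⟨x, rem⟩
    · exact ⟨h1, h2, h3⟩
    simp only [List.isEmpty_cons, cond_false, List.tail_cons, List.headD_cons]
    refine ⟨(List.sublist_cons_self x rem).trans h1, ?_, fun Y hY => ?_⟩
    · simp only [length_branch] at h4 ⊢
      omega
    · obtain ⟨Z, hZ, hY⟩ := List.mem_flatMap.1 hY
      obtain ⟨c, rfl⟩ : ∃ c, Y = (x, c) :: Z := by
        simp only [List.mem_cons, List.not_mem_nil, or_false] at hY
        rcases hY with rfl | rfl
        · exact ⟨true, rfl⟩
        · exact ⟨false, rfl⟩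
      obtain ⟨h5, h6, h7⟩ := h3 Z hZ
      refine ⟨by simp only [List.length_cons] at h5 ⊢; omega, fun l hl => ?_, fun v hv => ?_⟩
      · rcases List.mem_cons.1 hl with rfl | hl
        · exact h1.subset List.mem_cons_self
        · exact h6 l hl
      · rcases h7 v hv with h8 | ⟨c', h8⟩
        · rcases List.mem_cons.1 h8 with rfl | h8
          · exact Or.inr ⟨c, List.mem_cons_self⟩
          · exact Or.inl h8
        · exact Or.inr ⟨c', List.mem_cons_of_mem _ h8⟩

theorem inv_fold {φ : CNF} {B K : ℕ} {tst : Test} : ∀ (l : Hist) (s : List ℕ × List Node),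
    Inv φ (B * 2 ^ K) s → Inv φ (B * 2 ^ K) (l.foldl (stepS B K tst) s)
  | [], _, h => h
  | e :: l, _, h => inv_fold l _ (inv_step h e)

theorem inv_init (φ : CNF) (W : ℕ) : Inv φ W (vars φ, [[]]) :=
  ⟨List.Sublist.refl _, by simp, fun Y hY => by
    obtain rfl := List.mem_singleton.1 hY
    exact ⟨by simp [length_vars], by simp, fun v hv => Or.inl hv⟩⟩

theorem inv_state (φ : CNF) (B K : ℕ) (tst : Test) (h : Hist) :
    Inv φ (B * 2 ^ K) (state φ B K tst h) :=
  inv_fold _ _ (inv_init φ _)

theorem Inv.good {φ : CNF} {W : ℕ} {s : List ℕ × List Node} (h : Inv φ W s) :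
    ∀ Y ∈ s.2, Good φ Y := fun Y hY =>
  ⟨by have := (h.2.2 Y hY).1; omega, (h.2.2 Y hY).2.1⟩

theorem yes_state {φ : CNF} {B K : ℕ} {tst : Test}
    (ht : ∀ F u v, B * 2 ^ K ≤ F.length → tst F u v = true → (∃ Y ∈ F, YesN φ Y) →
      ∃ Y ∈ cut B K F u v, YesN φ Y) (hy : YesN φ []) :
    ∀ h : Hist, ∃ Y ∈ (state φ B K tst h).2, YesN φ Y
  | [] => ⟨[], by simp [state], hy⟩
  | e :: h => by
    have ih := yes_state ht hy h
    rw [state_cons]
    generalize state φ B K tst h = s at ih
    obtain ⟨rem, F⟩ := s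
    unfold stepS
    split_ifs with h6
    · cases h7 : tst F e.1 e.2
      · exact ih
      · exact ht F e.1 e.2 h6 h7 ih
    · rcases rem with _ | ⟨x, rem⟩
      · exact ih
      simp only [List.isEmpty_cons, cond_false, List.tail_cons, List.headD_cons]
      obtain ⟨Y, hY, a, ha, hρ⟩ := ih
      refine ⟨(x, a x) :: Y, List.mem_flatMap.2 ⟨Y, hY, ?_⟩, a, ha, fun l hl => ?_⟩
      · cases a x <;> simp
      · rcases List.mem_cons.1 hl with rfl | hl
        · rfl
        · exact hρ l hl

theorem prog {φ : CNF} {B K m : ℕ} {tst : Test} {H : Hist → Str → Str}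
    (hp : ∀ h u v, u.length = m → v.length = m → H h u = H h v →
      tst (state φ B K tst h).2 u v = true ∧ u.drop (B * K) = v.drop (B * K)) :
    ∀ h : Hist, Colls H m h → (state φ B K tst h).1 ≠ [] →
      (state φ B K tst h).1.length * (B * 2 ^ K) + (state φ B K tst h).2.length + h.length ≤
        nvars φ * (B * 2 ^ K) + 1
  | [], _ => fun _ => by simp [state, length_vars]
  | e :: h, hc => by
    obtain ⟨h0, h1, h2, h3, h4⟩ := colls_cons.1 hc
    have ih := prog hp h h0
    obtain ⟨h5, h5'⟩ := hp h e.1 e.2 h1 h2 h4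
    rw [state_cons]
    generalize state φ B K tst h = s at ih h5
    obtain ⟨rem, F⟩ := s
    unfold stepS
    split_ifs with h6
    · have h7 := cut_lt h6 (h1.trans h2.symm) h3 h5'
      rw [h5, cond_true]
      intro hr
      have := ih hr
      simp only [List.length_cons] at this h7 ⊢
      omega
    · rcases rem with _ | ⟨x, rem⟩
      · exact fun hr => absurd rfl hr
      simp only [List.isEmpty_cons, cond_false, List.tail_cons, List.headD_cons]
      intro _
      have := ih (by simp)
      simp only [List.length_cons, length_branch, add_mul, one_mul] at this h6 ⊢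
      omega

def acc (φ : CNF) (F : List Node) : Bool :=
  F.any fun Y => (Y.all fun l => !decide ((l.1, !l.2) ∈ Y)) &&
    φ.all fun C => C.any fun l => decide (l ∈ Y)

theorem acc_sound {φ : CNF} {F : List Node} (h : acc φ F = true) : Sat φ := by
  simp only [acc, List.any_eq_true, Bool.and_eq_true, List.all_eq_true, Bool.not_eq_true',
    decide_eq_false_iff_not, decide_eq_true_eq] at h
  obtain ⟨Y, -, h1, h2⟩ := h
  refine ⟨fun v => decide ((v, true) ∈ Y), fun C hC => ?_⟩
  obtain ⟨⟨v, c⟩, hl, h3⟩ := h2 C hC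
  refine ⟨(v, c), hl, ?_⟩
  cases c
  · exact decide_eq_false (h1 _ h3)
  · exact decide_eq_true h3

theorem acc_complete {φ : CNF} {F : List Node} {Y : Node} (hY : Y ∈ F) (h : YesN φ Y)
    (hall : ∀ v ∈ vars φ, ∃ c, (v, c) ∈ Y) : acc φ F = true := by
  simp only [acc, List.any_eq_true, Bool.and_eq_true, List.all_eq_true, Bool.not_eq_true',
    decide_eq_false_iff_not, decide_eq_true_eq]
  obtain ⟨a, ha, hρ⟩ := h
  refine ⟨Y, hY, fun l hl h1 => ?_, fun C hC => ?_⟩
  · have h2 := hρ _ hl
    have h3 := hρ _ h1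
    simp only [h2] at h3
    cases hb : l.2 <;> simp [hb] at h3
  · obtain ⟨l, hl, e⟩ := ha C hC
    obtain ⟨c, hc⟩ := hall l.1 (mem_vars hC hl)
    have h4 := hρ _ hc
    refine ⟨l, hl, ?_⟩
    have h5 : c = l.2 := h4.symm.trans e
    subst h5
    exact hc

end Pool.Agent.Lib.MP_ddf912_lc.Pig
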