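import Pool.Agent.Lib.MP_ddf912_lc.Pig.Poly

namespace Pool.Agent.Lib.MP_ddf912_lc.Pig

open Turing N487b59b3 N68a2faeb Pool.Agent.Lib.helper82 Hier

/-- The form of `FptPigeon` that tolerates longer padding and more collisions. -/
def RP (A : PProb) : Prop :=
  ∃ (H : (Str × Str) × Hist × Str → Str) (O : (Str × Str) × Hist → Bool) (F : ℕ → ℕ) (c : ℕ),
    PT H ∧ PT O ∧ Computable F ∧ ∀ x, (∀ p h, O ((x, p), h) = true → x ∉ A.Q) ∧ ∀ (p : Str) m,
      F (A.κ x) ≤ p.length → (p.length * (Nat.log 2 x.length + 1)) ^ c ≤ m →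
      (∀ h u, u.length = m → (H ((x, p), h, u)).length < m) ∧
      ∀ h, h.length = m → Colls (fun h u => H ((x, p), h, u)) m h → x ∉ A.Q →
        O ((x, p), h) = true

theorem RP.pigeon {A : PProb} (h : RP A) (hκ : IsPolyTime A.κ) : A ∈ FptPigeon := by
  obtain ⟨H, O, F, c, h1, h2, h3, h4⟩ := h
  refine ⟨hκ, H, O, F, c, h1.isPolyTime, h2.isPolyTime, h3, fun x => ⟨(h4 x).1, ?_⟩⟩
  rintro p m rfl rfl
  exact (h4 x).2 _ _ (by simp) (by simp)

theorem two_pow_size_le (n : ℕ) : 2 ^ n.size ≤ 2 * n + 1 := by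
  rcases Nat.eq_zero_or_pos n with rfl | h
  · simp
  have h1 : 0 < n.size := Nat.size_pos.2 h
  have h2 := (Nat.lt_size (m := n.size - 1) (n := n)).1 (by omega)
  rw [show n.size = n.size - 1 + 1 by omega, pow_succ]
  omega

theorem n1_lt {t : ℕ} (ht : 4 ≤ t) (N : ℕ) :
    t + N + 2 < 2 ^ (2 * (t * (Nat.log 2 N + 1))) := by
  have h1 : N < 2 ^ (Nat.log 2 N + 1) := Nat.lt_pow_succ_log_self (by norm_num) N
  have h2 : t + 2 ≤ 2 ^ t := by
    obtain ⟨s, rfl⟩ : ∃ s, t = s + 2 := ⟨t - 2, by omega⟩
    have := Nat.lt_two_pow_self (n := s)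
    rw [pow_add]
    omega
  set l := Nat.log 2 N + 1 with hl
  have h3 : t + l < 2 * (t * l) := by
    have := Nat.mul_le_mul_left t (show 1 ≤ l by omega)
    have := Nat.mul_le_mul_right l ht
    omega
  calc t + N + 2 ≤ (t + 2) * (N + 1) := by nlinarith
    _ ≤ 2 ^ t * 2 ^ l := Nat.mul_le_mul h2 h1
    _ < _ := by rw [← pow_add]; exact Nat.pow_lt_pow_right (by norm_num) h3

theorem RP.of_red {A B : PProb} (hB : RP B) (hr : FptRed A B) : RP A := by
  obtain ⟨H, O, F, c, hH, hO, hF, hc⟩ := hB
  obtain ⟨R, g, hR, hg, hr⟩ := hr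
  obtain ⟨sim, f, e, hsim, hf, hsim'⟩ := hR.sim
  obtain ⟨F', hF', hF''⟩ := exists_envelope hF
  obtain ⟨q, hq⟩ := hsim.sz_bd
  let S : Str × Str → Bool × Str := fun a =>
    sim (a.1, List.replicate ((a.2 ++ a.1 ++ [true, true]).length ^ (e + 1)) true)
  have hS : PT S := PT.comp hsim (PT.pair PT.fst'
    (PT.clockPow (PT.append (PT.append PT.snd' PT.fst') (PT.const _)) (e + 1)))
  have hS' : PT fun a : Str × Str => ((S a).2, a.2) := PT.pair (PT.snd hS) PT.snd'
  have k1 : PT fun a : (Str × Str) × Hist × Str => a.1 := PT.fst'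
  have k2 : PT fun a : (Str × Str) × Hist => a.1 := PT.fst'
  obtain ⟨e', he'⟩ := (((((Bd.const 6).mul Bd.self).add (Bd.const 1)).add
    ((Bd.const 3).mul (Bd.self.pow (e + 1)))).eval q).le_pow
  obtain ⟨e'', he''⟩ := (Bd.self.mul ((((Bd.const 2).mul Bd.self).mul (Bd.const e')).add
    (Bd.const 1))).le_pow
  refine ⟨fun a => H (((S a.1).2, a.1.2), a.2), fun a => (S a.1).1 && O (((S a.1).2, a.1.2), a.2),
    fun k => f k + F' (g k) + 4, e'' * c, PT.comp hH (PT.pair (PT.comp hS' k1 :) PT.snd'),
    PT.and (PT.fst (PT.comp hS k2 :)) (PT.comp hO (PT.pair (PT.comp hS' k2 :) PT.snd')),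
    computable_add (computable_add hf (hF'.comp hg)) (Computable.const 4), fun x => ⟨?_, ?_⟩⟩
  · intro p h hw
    simp only [Bool.and_eq_true] at hw
    rw [(hr x).1, ← (hsim' x _).2 hw.1]
    exact (hc _).1 _ _ hw.2
  · intro p m h1 h2
    simp only at h1
    set n := p.length + x.length + 2 with hn
    have hl : (p ++ x ++ [true, true]).length = n := by simp [hn, add_assoc]
    have h3 : (S (x, p)).1 = true := (hsim' x _).1 (by
      rw [List.length_replicate, hl, pow_succ']
      exact Nat.mul_le_mul (by omega) (Nat.pow_le_pow_left (by omega) e))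
    have h4 : (S (x, p)).2 = R x := (hsim' x _).2 h3
    set y := p.length * (Nat.log 2 x.length + 1) with hy
    have hy1 : p.length ≤ y := Nat.le_mul_of_pos_right _ (by omega)
    have h5 : (R x).length ≤ 2 ^ (2 * y * e') := by
      have a1 := hq (x, List.replicate (n ^ (e + 1)) true)
      have a2 : sz (S (x, p)) = 2 * 1 + 1 + 3 * (R x).length := by
        rw [← h4, ← PT.sz_listBool]
        exact sz_prod (S (x, p)).1 (S (x, p)).2
      have a3 := eval_mono q (show sz (x, List.replicate (n ^ (e + 1)) true) ≤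
          6 * n + 1 + 3 * n ^ (e + 1) by
        rw [sz_prod, PT.sz_listBool, PT.sz_listBool, List.length_replicate]; omega)
      have a4 := he' n (by omega)
      have a5 := Nat.pow_le_pow_left (n1_lt (show 4 ≤ p.length by omega) x.length).le e'
      rw [← pow_mul, ← hy, ← hn] at a5
      simp only [S, hl] at a1 a2 a4
      omega
    have h6 : Nat.log 2 (R x).length ≤ 2 * y * e' :=
      (Nat.log_mono_right h5).trans (Nat.log_pow (by norm_num) _).le
    have h7 := (hc (R x)).2 p m ((hF'' _ _ (hr x).2).trans (by omega)) (by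
      refine le_trans ?_ h2
      rw [pow_mul]
      exact Nat.pow_le_pow_left ((Nat.mul_le_mul hy1 (by omega)).trans (he'' y (by omega))) c)
    simp only [h3, h4, Bool.true_and]
    exact ⟨h7.1, fun h a1 a2 a3 => h7.2 h a1 a2 (by rwa [← (hr x).1])⟩

theorem numeric'' {D g e j K : ℕ} (h0 : 1 ≤ j) (hK : (4 * g * e + 1) ^ D + 2 ≤ K) :
    (2 * (g * ((j + 1) * e)) + 1) ^ D + 1 < j ^ D * K := by
  have h1 : 2 * (g * ((j + 1) * e)) + 1 ≤ (4 * g * e + 1) * j := by
    nlinarith [Nat.zero_le (g * e), Nat.mul_le_mul_left (g * e) h0]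
  have h2 := Nat.pow_le_pow_left h1 D
  rw [mul_pow] at h2
  have h3 : 1 ≤ j ^ D := Nat.one_le_pow _ _ h0
  nlinarith [Nat.mul_le_mul_right (j ^ D) hK]

theorem rp_level {D : ℕ} (hD : 2 ≤ D) (h : FptRed (pLogSat (D + 1)) (pLogSat D)) :
    RP (pLogSat (D + 1)) := by
  obtain ⟨R, g, hR, hg, hr⟩ := h
  obtain ⟨sim, f, c, hsim, hf, hs⟩ := hR.sim
  obtain ⟨F, hF, hF'⟩ := exists_envelope hf
  obtain ⟨G, hG, hG'⟩ := exists_envelope hg
  obtain ⟨lab, hlab, hlab1, hlab2⟩ := exists_lab D (by omega)
  obtain ⟨p, hp, ep⟩ := prs_cnf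
  obtain ⟨q, hq⟩ := (comb_pt D).sz_bd
  obtain ⟨q', hq'⟩ := hsim.sz_bd
  let s0 : ℕ → ℕ := fun z => z * (2 * (2 * z + 2) + 1)
  let s2 : ℕ → ℕ := fun z => z ^ D * (2 * (2 * (D * (2 * (3 * D * z) + 1)) + 1 + s0 z) + 1)
  let u : ℕ → ℕ := fun z => q.eval (2 * (5 * z + 2 + 2 * (z * (2 * z + 1))) + 1 + s2 z)
  have c0 : Bd (fun z => z) s0 := Bd.self.mul (((Bd.const 2).mul
    (((Bd.const 2).mul Bd.self).add (Bd.const 2))).add (Bd.const 1))
  have c2 : Bd (fun z => z) s2 := (Bd.self.pow D).mul (((Bd.const 2).mul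
    ((((Bd.const 2).mul ((Bd.const D).mul (((Bd.const 2).mul
      ((Bd.const (3 * D)).mul Bd.self)).add (Bd.const 1)))).add (Bd.const 1)).add c0)).add
      (Bd.const 1))
  have b1 : Bd (fun z => z) u := ((((Bd.const 2).mul
    ((((Bd.const 5).mul Bd.self).add (Bd.const 2)).add ((Bd.const 2).mul (Bd.self.mul
      (((Bd.const 2).mul Bd.self).add (Bd.const 1)))))).add (Bd.const 1)).add c2).eval q
  obtain ⟨qc, hqc⟩ := Bd.self.mul ((b1.add (Bd.const 1)).pow c)
  obtain ⟨e, he⟩ := (((((Bd.const 6).mul b1).add (Bd.const 1)).add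
    ((Bd.const 3).mul (Bd.self.eval qc))).eval q').le_pow
  obtain ⟨e', he'⟩ := (((((Bd.self.mul ((Bd.const 2).mul Bd.self)).add (Bd.const 1)).mul
    ((((Bd.const 2).mul Bd.self).pow D).mul (((Bd.const 2).mul Bd.self).add (Bd.const 1))))).add
    (Bd.const 2)).le_pow
  let nl : Str × Str → Str := fun a => a.2 ++ a.1 ++ [true, true]
  let bs : Str × Str → List ℕ := fun a => List.range (nl a).length.bits.length
  let T : Str × Str → List (List ℕ) := fun a => tup D (bs a) D
  let kl : Str × Str → Str := fun a => a.2.length.bits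
  let sm : Str × Str → Slots → Bool × Str := fun a S =>
    sim (enc (comb D (p a.1) (bs a) (nl a ++ nl a) S),
      List.replicate (qc.eval (nl a ++ nl a).length) true)
  let sl : Str × Str → List Node → Str → Bool × Str := fun a F u =>
    sm a (slots (T a) (kl a).length F u)
  let tst : Str × Str → Test := fun a F u v =>
    (sl a F u).1 && (sl a F v).1 && decide (lab (sl a F u).2 = lab (sl a F v).2)
  let st : (Str × Str) × Hist → List ℕ × List Node := fun a =>
    state (p a.1.1) (T a.1).length (kl a.1).length (tst a.1) a.2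
  have hnl : PT nl := PT.append (PT.append PT.snd' PT.fst') (PT.const _)
  have hbs : PT bs := PT.range (PT.bits (PT.length hnl))
  have hT : PT T := PT.comp (tup_pt D D) hbs
  have hkl : PT kl := PT.bits (PT.length PT.snd')
  have hI : PT fun a : Str × Str => p a.1 := PT.comp hp PT.fst'
  have k1 : PT fun a : (Str × Str) × Slots => a.1 := PT.fst'
  have hγ : PT fun a : Str × Str => (p a.1, bs a, nl a ++ nl a) :=
    PT.pair hI (PT.pair hbs (PT.append hnl hnl))
  have hsm : PT fun a : (Str × Str) × Slots => sm a.1 a.2 :=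
    PT.comp hsim (PT.pair (PT.comp PT.encList (PT.comp (comb_pt D)
      (PT.pair (PT.comp hγ k1 :) PT.snd') :)) (PT.comp (PT.clock (PT.append hnl hnl) qc) k1 :))
  have k2 : PT fun a : (Str × Str) × List Node × Str => a.1 := PT.fst'
  have hsl : PT fun a : (Str × Str) × List Node × Str => sl a.1 a.2.1 a.2.2 :=
    (PT.comp hsm (PT.pair k2 (slots_pt (PT.comp hT k2 :) (PT.comp hkl k2 :) (PT.fst PT.snd')
      (PT.snd PT.snd'))) :)
  have k3 : PT fun a : ((Str × Str) × Hist) × List Node × Str × Str => (a.1.1, a.2.1, a.2.2.1) :=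
    PT.pair (PT.fst PT.fst') (PT.pair (PT.fst PT.snd') (PT.fst (PT.snd PT.snd')))
  have k4 : PT fun a : ((Str × Str) × Hist) × List Node × Str × Str => (a.1.1, a.2.1, a.2.2.2) :=
    PT.pair (PT.fst PT.fst') (PT.pair (PT.fst PT.snd') (PT.snd (PT.snd PT.snd')))
  have k5 := PT.comp hsl k3
  have k6 := PT.comp hsl k4
  have k7 : PT fun a : (Str × Str) × Hist => a.1 := PT.fst'
  have k8 : PT fun a : (Str × Str) × Hist => a.1.2 := PT.snd PT.fst'
  have hst : PT st := state_pt (tst := fun a : (Str × Str) × Hist => tst a.1) (PT.comp hI k7 :)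
    (PT.comp hT k7 :) (PT.comp hkl k7 :)
    ((((Bd.const 2).mul k8.sz_bd).add (Bd.const 1)).of_le fun a => by
      have := two_pow_size_le a.1.2.length
      simp only [kl, Nat.size_eq_bits_len, PT.sz_listBool]
      omega)
    (PT.and (PT.and (PT.fst k5) (PT.fst k6))
      (PT.eq (PT.comp hlab (PT.snd k5)) (PT.comp hlab (PT.snd k6)))) PT.snd'
  have m1 : PT fun a : (Str × Str) × Hist × Str => a.1 := PT.fst'
  have m2 : PT fun a : (Str × Str) × Hist × Str => a.2.2 := PT.snd PT.snd'
  have m3 : PT fun a : (Str × Str) × Hist × Str => (st (a.1, a.2.1)).2 :=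
    PT.snd (PT.comp hst (PT.pair m1 (PT.fst PT.snd')) :)
  have hval : PT fun a : Str × Str => decide (enc (p a.1) = a.1) &&
      (p a.1).all fun C => decide (C.length ≤ D + 1) :=
    PT.and (PT.eq (PT.comp PT.encList hI) PT.fst')
      (PT.all (P := fun _ (C : List (ℕ × Bool)) => decide (C.length ≤ D + 1)) hI
        (PT.le (PT.length PT.snd') (PT.const (D + 1))))
  have hk6 : Computable fun k : ℕ => k + 6 * D :=
    computable_add Computable.id (Computable.const _)
  refine ⟨fun a => (lab (sl a.1 (st (a.1, a.2.1)).2 a.2.2).2 ++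
      a.2.2.drop ((T a.1).length * (kl a.1).length)).take a.2.2.tail.length,
    fun a => !(decide (enc (p a.1.1) = a.1.1) && (p a.1.1).all fun C =>
      decide (C.length ≤ D + 1)) || ((st a).1.isEmpty && !acc (p a.1.1) (st a).2),
    fun k => 2 ^ ((4 * G (k + 6 * D) * e + 1) ^ D + 2) + F (k + 6 * D) + k + 4, e',
    pt_take (PT.append (PT.comp hlab (PT.snd (PT.comp hsl (PT.pair m1 (PT.pair m3 m2)) :)))
      (pt_dropN m2 (PT.mul (PT.length (PT.comp hT m1 :)) (PT.length (PT.comp hkl m1 :)))))
      (PT.tail m2),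
    PT.or (PT.not (PT.comp hval k7 :)) (PT.and (PT.isEmpty (PT.fst hst))
      (PT.not (PT.comp acc_pt (PT.pair (PT.comp hI k7 :) (PT.snd hst)) :))),
    computable_add (computable_add (computable_add (computable_two_pow (computable_add
      (computable_pow (computable_add (computable_mul (computable_mul (Computable.const 4)
        (hG.comp hk6)) (Computable.const e)) (Computable.const 1)) D)
      (Computable.const 2))) (hF.comp hk6)) Computable.id) (Computable.const 4),
    fun x => ⟨?_, ?_⟩⟩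
  · rintro pd h hw ⟨φ, rfl, hwid, hsat⟩
    have e0 : bitEncode φ = enc φ := rfl
    have e1 : (φ.all fun C => decide (C.length ≤ D + 1)) = true := by
      simpa [Width] using hwid
    simp only [e0, ep, e1, decide_true, Bool.and_self, Bool.not_true, Bool.false_or,
      Bool.and_eq_true, List.isEmpty_iff, Bool.not_eq_true', st] at hw
    obtain ⟨a, ha⟩ := hsat
    obtain ⟨Y, hY, hY'⟩ := yes_state (φ := φ) (B := (T (enc φ, pd)).length)
      (K := (kl (enc φ, pd)).length) (tst := tst (enc φ, pd)) (by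
        intro F u v h1 ht
        simp only [tst, sl, sm, ep, Bool.and_eq_true, decide_eq_true_eq] at ht
        obtain ⟨⟨h3, h4⟩, h5⟩ := ht
        rw [(hs _ _).2 h3, (hs _ _).2 h4] at h5
        refine cut_yes h1 fun h6 => ?_
        exact (sat_comb (by omega) (map_fst_slots _ _ _ _)).1 ((mem_coded _ _ _).1 ((hr _).1.2
          (hlab1 _ _ h5 ((hr _).1.1 ((mem_coded _ _ _).2
            ⟨width_comb hD hwid (map_fst_slots _ _ _ _),
              (sat_comb (by omega) (map_fst_slots _ _ _ _)).2 h6⟩))))).2) ⟨a, ha, by simp⟩ h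
    have h7 := ((inv_state φ (T (enc φ, pd)).length (kl (enc φ, pd)).length
      (tst (enc φ, pd)) h).2.2 Y hY).2.2
    rw [hw.1] at h7
    have h8 := acc_complete hY hY' fun v hv => (h7 v hv).resolve_left (by simp)
    rw [hw.2] at h8
    exact Bool.false_ne_true h8
  · intro pd m hpd hm
    obtain ⟨t, ht⟩ : ∃ t, t = pd.length := ⟨_, rfl⟩
    rw [← ht] at hpd hm
    obtain ⟨y, hy⟩ : ∃ y, y = t * (Nat.log 2 x.length + 1) := ⟨_, rfl⟩
    rw [← hy] at hm
    have hy1 : t ≤ y := hy ▸ Nat.le_mul_of_pos_right _ (by omega)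
    have hsp : ∀ a b c : ℕ, a + b + c + 4 ≤ t → a ≤ t ∧ b ≤ t ∧ c ≤ t ∧ 4 ≤ t := by omega
    obtain ⟨ht1, ht2, ht3, ht4⟩ := hsp _ _ _ hpd
    clear hpd hsp
    have hm1 := (he' y (by omega)).trans hm
    refine ⟨fun h w hw => (List.length_take_le _ _).trans_lt (by
      rw [List.length_tail, hw]; omega), fun h hh hc hx => ?_⟩
    by_cases hv : enc (p x) = x ∧ Width (D + 1) (p x)
    swap
    · have : (decide (enc (p x) = x) && (p x).all fun C => decide (C.length ≤ D + 1)) = false := by
        rw [Bool.eq_false_iff]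
        intro h9
        apply hv
        simpa [Width] using h9
      simp only [this, Bool.not_false, Bool.true_or]
    obtain ⟨φ, rfl⟩ : ∃ φ : CNF, enc φ = x := ⟨_, hv.1⟩
    have hwid : Width (D + 1) φ := by simpa [ep] using hv.2
    set k := (pLogSat (D + 1)).κ (enc φ) with hk
    have hκ' : ⌈(nvars φ : ℝ) / Real.logb 2 (bitEncode φ).length⌉₊ ≤ k := by
      rw [hk, pLogSat, κ_coded]
    have hN : (enc φ).length = sz φ := rfl
    set a : Str × Str := (enc φ, pd) with ha
    obtain ⟨n, hn⟩ : ∃ n, n = t + sz φ + 2 := ⟨_, rfl⟩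
    have hnl' : (nl a).length = n := by simp [nl, ha, hn, ht, add_assoc]
    obtain ⟨j, hj⟩ : ∃ j, j = n.size := ⟨_, rfl⟩
    obtain ⟨K, hK⟩ : ∃ K, K = t.size := ⟨_, rfl⟩
    obtain ⟨z, hz⟩ : ∃ z, z = 2 * n := ⟨_, rfl⟩
    have hpad : (nl a ++ nl a).length = z := by rw [List.length_append, hnl']; omega
    have hbs' : bs a = List.range j := by simp only [bs, hnl', Nat.size_eq_bits_len, hj]
    have hkl' : (kl a).length = K := by simp only [kl, ha, Nat.size_eq_bits_len, hK, ht]
    have hT' : (T a).length = j ^ D := by simp only [T, hbs', length_tup, List.length_range]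
    have h3 : n < 2 ^ j := hj ▸ Nat.lt_size_self _
    have h4 : z ≤ 2 ^ (j + 1) := by rw [pow_succ]; omega
    have hj1 : 1 ≤ j := hj ▸ Nat.size_pos.2 (by omega)
    have h4' : 2 ^ j ≤ z := by
      have a1 := two_pow_size_le n
      have a2 : 2 ^ j = 2 * 2 ^ (j - 1) := by rw [← pow_succ']; congr 1; omega
      rw [← hj] at a1
      omega
    have hjL : j < 2 ^ j := Nat.lt_two_pow_self
    have hj2 : j ≤ 2 * y := by
      rw [hj, hn, hy]
      exact Nat.size_le.2 (n1_lt ht4 _)
    have hK1 : (4 * G (k + 6 * D) * e + 1) ^ D + 2 < K := hK ▸ Nat.lt_size.2 ht1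
    have hK2 : 2 ^ K ≤ 2 * y + 1 := hK ▸ (two_pow_size_le t).trans (by omega)
    have hK3 : K < 2 ^ K := Nat.lt_two_pow_self
    have hnv : nvars φ ≤ k * j := nvars_le hκ' (by omega)
    have hW : j ^ D * 2 ^ K ≤ (2 * y) ^ D * (2 * y + 1) :=
      Nat.mul_le_mul (Nat.pow_le_pow_left hj2 D) hK2
    have hW1 : j ^ D * K ≤ j ^ D * 2 ^ K := Nat.mul_le_mul_left _ hK3.le
    have hW2 : (nvars φ + 1) * (j ^ D * 2 ^ K) ≤ (y * (2 * y) + 1) * ((2 * y) ^ D * (2 * y + 1)) :=
      Nat.mul_le_mul (Nat.succ_le_succ (hnv.trans (Nat.mul_le_mul (by omega) hj2))) hW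
    rw [add_mul, one_mul] at hW2
    have hszS : ∀ S : Slots, S.map Prod.fst = tup D (List.range j) D →
        (∀ Y ∈ S.map Prod.snd, Good φ Y) → sz S ≤ s2 z := by
      intro S h5 h6
      refine (sz_le_of_forall (2 * (D * (2 * (3 * D * z) + 1)) + 1 + s0 z) S ?_).trans
        (Nat.mul_le_mul_right _ ?_)
      · rintro ⟨t, Y⟩ ht
        have h7 := sz_tuple_le (z := z) (by omega) (h5 ▸ List.mem_map_of_mem (f := Prod.fst) ht)
        have h8 := sz_node_le (z := z) (h6 _ (List.mem_map_of_mem (f := Prod.snd) ht)) (by omega)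
        rw [sz_prod]
        simp only [s0] at h7 h8 ⊢
        omega
      · rw [← List.length_map (f := Prod.fst), h5, length_tup, List.length_range]
        exact Nat.pow_le_pow_left (by omega) D
    have key : ∀ S : Slots, S.map Prod.fst = tup D (List.range j) D →
        (∀ Y ∈ S.map Prod.snd, Good φ Y) → (sm a S).1 = true ∧
          (lab (sm a S).2).length < j ^ D * K := by
      intro S h5 h6
      set pad := nl a ++ nl a with hpad'
      set clk := List.replicate (qc.eval z) true with hclk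
      have hsm' : sm a S = sim (enc (comb D φ (List.range j) pad S), clk) := by
        simp only [sm, hbs', ← hpad', hpad, ← hclk]
        simp only [ha, ep]
      have h7 := hszS S h5 h6
      have h7' := sz_range_le (show j ≤ z by omega)
      have h8 : (enc (comb D φ (List.range j) pad S)).length ≤ u z :=
        (hq ((φ, List.range j, pad), S)).trans (eval_mono q (by
          rw [sz_prod, sz_prod, sz_prod, PT.sz_listBool, hpad]
          omega))
      have hκ : (pLogSat (D + 1)).κ (enc (comb D φ (List.range j) pad S)) ≤ k + 6 * D := by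
        rw [pLogSat, κ_coded]
        have a1 : 2 ^ j ≤ sz (comb D φ (List.range j) pad S) := by
          have := pad_le_sz (D := D) (φ := φ) (bs := List.range j) (pad := pad) (S := S)
          omega
        have a2 := nvars_comb (pad := pad) (by omega) h5 fun Y hY => (h6 Y hY).2
        refine Nat.le_of_not_lt fun a3 => ?_
        rw [lt_ceil_iff (by change 2 ≤ sz _; omega)] at a3
        have a4 := (Nat.pow_le_pow_left a1 (k + 6 * D)).trans_lt a3
        rw [← pow_mul, Nat.pow_lt_pow_iff_right (by norm_num)] at a4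
        nlinarith [Nat.mul_le_mul_left (3 * D) hj1]
      have h9 := (hs (enc (comb D φ (List.range j) pad S)) clk).1 (by
        rw [hclk, List.length_replicate]
        exact (Nat.mul_le_mul ((hF' _ _ hκ).trans (by omega))
          (Nat.pow_le_pow_left (by omega) c)).trans (hqc z))
      rw [hsm']
      refine ⟨h9, (hlab2 _ (G (k + 6 * D) * ((j + 1) * e)) fun ψ hψ => ?_).trans_lt
        (numeric'' hj1 hK1.le)⟩
      have h10 := (hs (enc (comb D φ (List.range j) pad S)) clk).2 h9
      have h11 := (hr (enc (comb D φ (List.range j) pad S))).2.trans (hG' _ _ hκ)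
      rw [← h10, ← hψ] at h11
      refine nvars_le ((κ_coded _ _ ψ).symm.le.trans h11) ?_
      have h12 := hq' (enc (comb D φ (List.range j) pad S), clk)
      have h13 : sz (sim (enc (comb D φ (List.range j) pad S), clk)) = 2 * 1 + 1 + 3 * sz ψ := by
        rw [sz, sz, hψ, ← PT.sz_listBool]
        exact sz_prod (sim (enc (comb D φ (List.range j) pad S), clk)).1
          (sim (enc (comb D φ (List.range j) pad S), clk)).2
      have h14 := eval_mono q' (show sz ((enc (comb D φ (List.range j) pad S), clk) :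
          List Bool × List Bool) ≤ 6 * u z + 1 + 3 * qc.eval z by
        rw [sz_prod, PT.sz_listBool, PT.sz_listBool, hclk, List.length_replicate]; omega)
      have h15 := he z (by omega)
      have h16 := Nat.pow_le_pow_left h4 e
      rw [← pow_mul] at h16
      simp only at h12 h15
      omega
    have hst' : ∀ h, st (a, h) = state φ (T a).length (kl a).length (tst a) h := fun h => by
      simp only [st, ha, ep]
    have h20 := prog (φ := φ) (B := (T a).length) (K := (kl a).length) (tst := tst a) (m := m)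
      (by
        intro h w w' h5 h6 h7
        simp only [hst'] at h7
        have h8 := (inv_state φ (T a).length (kl a).length (tst a) h).good
        generalize (state φ (T a).length (kl a).length (tst a) h).2 = F at h7 h8
        have h9 : ∀ w, (slots (T a) (kl a).length F w).map Prod.fst = tup D (List.range j) D :=
          fun w => by rw [map_fst_slots]; simp only [T, hbs']
        obtain ⟨a1, a2⟩ := key _ (h9 w) (good_slots h8)
        obtain ⟨a3, a4⟩ := key _ (h9 w') (good_slots h8)
        rw [List.take_of_length_le (by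
            rw [List.length_append, List.length_drop, List.length_tail, hT', hkl']
            simp only [sl]; omega),
          List.take_of_length_le (by
            rw [List.length_append, List.length_drop, List.length_tail, hT', hkl']
            simp only [sl]; omega)] at h7
        obtain ⟨a5, a6⟩ := List.append_inj' h7 (by simp [h5, h6])
        refine ⟨?_, a6⟩
        simp only [tst, Bool.and_eq_true, decide_eq_true_eq]
        exact ⟨⟨a1, a3⟩, a5⟩) h hc
    have h21 : (st (a, h)).1 = [] := by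
      by_contra h22
      rw [hst'] at h22
      have := h20 h22
      rw [hT', hkl'] at this
      omega
    have h22 : acc φ (st (a, h)).2 = false := by
      rw [Bool.eq_false_iff]
      exact fun h23 => hx ((mem_coded _ _ _).2 ⟨hwid, acc_sound h23⟩)
    simp only [ha, ep] at h21 h22 ⊢
    simp [h21, h22]

theorem levels {d : ℕ} (hd : 2 ≤ d) (h : Below (pLogSat (d + 1)) ⊆ Below (pLogSat d)) :
    Below (pLogSat (d + 1)) ⊆ FptPigeon := fun _ hA =>
  ((rp_level hd (h ⟨(prs_cnf.extend logParam_pt 0).isPolyTime, fptRed_refl _⟩).2).of_red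
    hA.2).pigeon hA.1

end Pool.Agent.Lib.MP_ddf912_lc.Pig
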