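import Pool.Agent.Lib.MP_ddf912_lc.Pig.Core

namespace Pool.Agent.Lib.MP_ddf912_lc.Pig

open Turing N487b59b3 N68a2faeb Pool.Agent.Lib.helper82 Hier

section
variable {α β : Type} [Enc α] [Enc β]

theorem enum_pt [Inhabited β] {f : α → List β} (hf : PT f) : PT fun a => enum (f a) := PT.enum hf

theorem pos_pt {kl u : α → Str} {i : α → ℕ} (hk : PT kl) (hu : PT u) (hi : PT i) :
    PT fun a => pos (kl a).length (u a) (i a) :=
  PT.add (PT.mul hi (PT.powU (PT.const 2) hk))
    (PT.ofB_pt (pt_take (pt_dropN hu (PT.mul hi (PT.length hk))) hk))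

theorem slots_pt {T : α → List (List ℕ)} {kl u : α → Str} {F : α → List Node} (hT : PT T)
    (hk : PT kl) (hF : PT F) (hu : PT u) : PT fun a => slots (T a) (kl a).length (F a) (u a) := by
  have h0 : PT fun p : α × (ℕ × List ℕ) => p.1 := PT.fst'
  have h1 : PT fun p : α × (ℕ × List ℕ) => p.2.1 := PT.fst PT.snd'
  exact PT.map (F := fun a (e : ℕ × List ℕ) =>
    (e.2, (F a).getD (pos (kl a).length (u a) e.1) [])) (enum_pt hT)
    (PT.pair (PT.snd PT.snd') (pt_getD (PT.comp hF h0 :)
      (pos_pt (PT.comp hk h0 :) (PT.comp hu h0 :) h1) []))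

theorem poss_pt {T : α → List (List ℕ)} {kl u : α → Str} (hT : PT T) (hk : PT kl) (hu : PT u) :
    PT fun a => (List.range (T a).length).map (pos (kl a).length (u a)) := by
  have h0 : PT fun p : α × ℕ => p.1 := PT.fst'
  exact PT.map (F := fun a i => pos (kl a).length (u a) i) (PT.range hT)
    (pos_pt (PT.comp hk h0 :) (PT.comp hu h0 :) PT.snd')

theorem cut_pt {T : α → List (List ℕ)} {kl u v : α → Str} {F : α → List Node} (hT : PT T)
    (hk : PT kl) (hF : PT F) (hu : PT u) (hv : PT v) :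
    PT fun a => cut (T a).length (kl a).length (F a) (u a) (v a) := by
  have h0 : PT fun p : α × (ℕ × Node) => p.1 := PT.fst'
  have h1 : PT fun p : α × (ℕ × Node) => p.2.1 := PT.fst PT.snd'
  have h2 : PT fun p : α × (ℕ × Node) =>
      keep (T p.1).length (kl p.1).length (u p.1) (v p.1) p.2.1 :=
    PT.or (PT.not (ptMem h1 (PT.comp (poss_pt hT hk hu) h0 :)))
      (ptMem h1 (PT.comp (poss_pt hT hk hv) h0 :))
  exact PT.map (F := fun _ (e : ℕ × Node) => e.2)
    (PT.filter (P := fun a (e : ℕ × Node) =>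
      keep (T a).length (kl a).length (u a) (v a) e.1) (enum_pt hF) h2) (PT.snd PT.snd')

theorem state_pt {φ : α → CNF} {T : α → List (List ℕ)} {kl : α → Str} {tst : α → Test}
    {h : α → Hist} (hφ : PT φ) (hT : PT T) (hk : PT kl)
    (hW : Bd sz fun a => 2 ^ (kl a).length)
    (ht : PT fun a : α × List Node × Str × Str => tst a.1 a.2.1 a.2.2.1 a.2.2.2) (hh : PT h) :
    PT fun a => state (φ a) (T a).length (kl a).length (tst a) (h a) := by
  have h0 : PT fun p : α × (List ℕ × List Node) × (Str × Str) => p.1 := PT.fst'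
  have hs : PT fun p : α × (List ℕ × List Node) × (Str × Str) => p.2.1 := PT.fst PT.snd'
  have he : PT fun p : α × (List ℕ × List Node) × (Str × Str) => p.2.2 := PT.snd PT.snd'
  have g0 : PT fun p : (List ℕ × List Node) × Node => p.1.1.headD 0 :=
    PT.headD (PT.fst PT.fst') 0
  have g1 : PT fun s : List ℕ × List Node => s.2.flatMap fun Y =>
      [(s.1.headD 0, true) :: Y, (s.1.headD 0, false) :: Y] :=
    PT.flatMap (F := fun (s : List ℕ × List Node) (Y : Node) =>
      [(s.1.headD 0, true) :: Y, (s.1.headD 0, false) :: Y]) PT.snd'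
      (PT.cons (PT.cons (PT.pair g0 (PT.const true)) PT.snd')
        (PT.cons (PT.cons (PT.pair g0 (PT.const false)) PT.snd') (PT.const [])))
  have hstep : PT fun p : α × (List ℕ × List Node) × (Str × Str) =>
      stepS (T p.1).length (kl p.1).length (tst p.1) p.2.1 p.2.2 :=
    PT.ite (PT.le (PT.mul (PT.length (PT.comp hT h0 :)) (PT.powU (PT.const 2) (PT.comp hk h0 :)))
        (PT.length (PT.snd hs)))
      (PT.cond (PT.comp ht (PT.pair h0 (PT.pair (PT.snd hs) he)) :)
        (PT.pair (PT.fst hs) (cut_pt (PT.comp hT h0 :) (PT.comp hk h0 :) (PT.snd hs) (PT.fst he)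
          (PT.snd he))) hs)
      (PT.cond (PT.isEmpty (PT.fst hs)) hs (PT.pair (PT.tail (PT.fst hs)) (PT.comp g1 hs :)))
  have hv : PT fun a => vars (φ a) := PT.comp vars_pt hφ
  refine PT.foldl (h := fun a => stepS (T a).length (kl a).length (tst a)) (PT.reverse hh)
    (PT.pair hv (PT.const [[]])) hstep
    (fun a => 2 * sz (vars (φ a)) + 1 + (2 * (sz (T a) * 2 ^ (kl a).length) + 1) *
      (2 * (sz (φ a) * (2 * (2 * sz (φ a) + 2) + 1)) + 1))
    ((((Bd.const 2).mul hv.sz_bd).add (Bd.const 1)).add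
      ((((Bd.const 2).mul (hT.sz_bd.mul hW)).add (Bd.const 1)).mul
        (((Bd.const 2).mul (hφ.sz_bd.mul (((Bd.const 2).mul (((Bd.const 2).mul hφ.sz_bd).add
          (Bd.const 2))).add (Bd.const 1)))).add (Bd.const 1)))) ?_
  intro a k
  have hI := inv_fold (tst := tst a) ((h a).reverse.take k) _
    (inv_init (φ a) ((T a).length * 2 ^ (kl a).length))
  generalize ((h a).reverse.take k).foldl (stepS (T a).length (kl a).length (tst a))
    (vars (φ a), [[]]) = s at hI
  obtain ⟨rem, F⟩ := s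
  have h1 := sz_le_of_sublist hI.1
  have h2 := sz_le_of_forall _ F fun Y hY => sz_node_le (hI.good Y hY) le_rfl
  have h3 : F.length ≤ 2 * (sz (T a) * 2 ^ (kl a).length) + 1 :=
    hI.2.1.trans (by have := Nat.mul_le_mul_right (2 ^ (kl a).length) (length_le_sz (T a)); omega)
  have h4 := h2.trans (Nat.mul_le_mul_right _ h3)
  rw [sz_prod]
  simp only at h1
  omega

end

theorem acc_pt : PT fun a : CNF × List Node => acc a.1 a.2 := by
  have hneg : PT fun a : Node × (ℕ × Bool) => !decide ((a.2.1, !a.2.2) ∈ a.1) :=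
    PT.not (ptMem (PT.pair (PT.fst PT.snd') (PT.not (PT.snd PT.snd'))) PT.fst')
  have h1 : PT fun Y : Node => Y.all fun l => !decide ((l.1, !l.2) ∈ Y) :=
    PT.all (P := fun (Y : Node) (l : ℕ × Bool) => !decide ((l.1, !l.2) ∈ Y)) PT.id hneg
  have h2 : PT fun a : Node × Node => a.2.any fun l => decide (l ∈ a.1) :=
    PT.any (P := fun (a : Node × Node) (l : ℕ × Bool) => decide (l ∈ a.1)) PT.snd'
      (ptMem PT.snd' (PT.fst PT.fst'))
  have k1 : PT fun a : (CNF × Node) × Node => (a.1.2, a.2) := PT.pair (PT.snd PT.fst') PT.snd'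
  have h3 : PT fun a : CNF × Node => a.1.all fun C => C.any fun l => decide (l ∈ a.2) :=
    PT.all (P := fun (a : CNF × Node) (C : Node) => C.any fun l => decide (l ∈ a.2)) PT.fst'
      (PT.comp h2 k1 :)
  have k2 : PT fun a : (CNF × List Node) × Node => a.2 := PT.snd'
  have k3 : PT fun a : (CNF × List Node) × Node => (a.1.1, a.2) :=
    PT.pair (PT.fst PT.fst') PT.snd'
  exact PT.any (P := fun (a : CNF × List Node) (Y : Node) =>
    (Y.all fun l => !decide ((l.1, !l.2) ∈ Y)) && a.1.all fun C => C.any fun l => decide (l ∈ Y))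
    PT.snd' (PT.and (PT.comp h1 k2 :) (PT.comp h3 k3 :))

def cands (L : Node) : ℕ → CNF
  | 0 => [[]]
  | d + 1 => [] :: L.flatMap fun l => (cands L d).map fun C => l :: C

def cn (a : ℕ) : ℕ → ℕ
  | 0 => 1
  | d + 1 => a * cn a d + 1

theorem length_cands (L : Node) : ∀ d, (cands L d).length = cn L.length d
  | 0 => rfl
  | d + 1 => by simp [cands, cn, List.length_flatMap, length_cands L d]

theorem mem_cands {L : Node} : ∀ (d : ℕ) (C : Node), C.length ≤ d → (∀ l ∈ C, l ∈ L) →
    C ∈ cands L d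
  | 0, C, h, _ => by simp [cands, List.eq_nil_of_length_eq_zero (Nat.le_zero.1 h)]
  | d + 1, [], _, _ => by simp [cands]
  | d + 1, l :: C, h, h' => List.mem_cons_of_mem _ (List.mem_flatMap.2
      ⟨l, h' l List.mem_cons_self, List.mem_map_of_mem (mem_cands d C (by simpa using h)
        fun x hx => h' x (List.mem_cons_of_mem _ hx))⟩)

theorem cn_pos (a : ℕ) : ∀ d, 1 ≤ cn a d
  | 0 => le_rfl
  | d + 1 => by simp [cn]

theorem cn_mono {a b : ℕ} (h : a ≤ b) : ∀ d, cn a d ≤ cn b d
  | 0 => le_rfl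
  | d + 1 => Nat.succ_le_succ (Nat.mul_le_mul h (cn_mono h d))

theorem cn_lt {a b : ℕ} (h : a < b) (d : ℕ) : cn a (d + 1) < cn b (d + 1) := by
  have h1 := cn_mono h.le d
  have h2 := cn_pos a d
  have h3 := Nat.mul_le_mul (show a + 1 ≤ b from h) h1
  rw [add_mul] at h3
  simp only [cn]
  omega

theorem cn_le (a : ℕ) : ∀ d, cn a d ≤ (a + 1) ^ d
  | 0 => le_rfl
  | d + 1 => by
    have h1 := Nat.mul_le_mul_left a (cn_le a d)
    have h2 : 1 ≤ (a + 1) ^ d := Nat.one_le_pow _ _ (by omega)
    rw [cn, pow_succ, mul_add, mul_one, mul_comm _ a]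
    omega

theorem cands_pt : ∀ d, PT fun L : Node => cands L d
  | 0 => PT.const [[]]
  | d + 1 => by
    have h0 : PT fun p : Node × (ℕ × Bool) => p.1 := PT.fst'
    have h1 : PT fun p : (Node × (ℕ × Bool)) × Node => p.1.2 :: p.2 :=
      PT.cons (PT.snd PT.fst') PT.snd'
    have h2 : PT fun p : Node × (ℕ × Bool) => (cands p.1 d).map fun C => p.2 :: C :=
      PT.map (F := fun (p : Node × (ℕ × Bool)) (C : Node) => p.2 :: C)
        (PT.comp (cands_pt d) h0 :) h1
    exact PT.cons (PT.const []) (PT.flatMap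
      (F := fun (L : Node) (l : ℕ × Bool) => (cands L d).map fun C => l :: C) PT.id h2)

def lits (n : ℕ) : Node := (List.range n).flatMap fun i => [(i, true), (i, false)]

theorem length_lits (n : ℕ) : (lits n).length = 2 * n := by
  simp [lits, List.length_flatMap, mul_comm]

theorem mem_lits {n : ℕ} {l : ℕ × Bool} (h : l.1 < n) : l ∈ lits n := by
  obtain ⟨i, b⟩ := l
  refine List.mem_flatMap.2 ⟨i, List.mem_range.2 h, ?_⟩
  cases b <;> simp

theorem lits_pt : PT fun φ : CNF => lits (nvars φ) :=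
  (PT.flatMap (F := fun (_ : CNF) (i : ℕ) => [(i, true), (i, false)]) (PT.range vars_pt)
    (PT.cons (PT.pair PT.snd' (PT.const true)) (PT.cons (PT.pair PT.snd' (PT.const false))
      (PT.const [])))).congr fun φ => by rw [lits, length_vars]

theorem exists_lab (d : ℕ) (hd : 1 ≤ d) : ∃ lab : Str → Str, PT lab ∧
    (∀ y y', lab y = lab y' → y ∈ (pLogSat d).Q → y' ∈ (pLogSat d).Q) ∧
    ∀ y n₀, (∀ ψ : CNF, enc ψ = y → nvars ψ ≤ n₀) → (lab y).length ≤ (2 * n₀ + 1) ^ d + 1 := by
  obtain ⟨p, hp, ep⟩ := prs_cnf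
  let valid : Str → Bool := fun y =>
    decide (enc (p y) = y) && (p y).all fun C => decide (C.length ≤ d)
  have hvalid : PT valid := PT.and (PT.eq (PT.comp PT.encList hp) PT.id)
    (PT.all (P := fun _ (C : List (ℕ × Bool)) => decide (C.length ≤ d)) hp
      (PT.le (PT.length PT.snd') (PT.const d)))
  have hv : ∀ y, valid y = true ↔ enc (p y) = y ∧ Width d (p y) := by
    intro y; simp [valid, Width]
  let bits : CNF → Str := fun ψ => (cands (lits (nvars ψ)) d).map fun C => decide (C ∈ canon ψ)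
  have k0 : PT fun a : CNF × Node => a.1 := PT.fst'
  have hbits : PT bits :=
    PT.map (F := fun (ψ : CNF) (C : Node) => decide (C ∈ canon ψ))
      (PT.comp (cands_pt d) lits_pt :) (ptMem PT.snd' (PT.comp canon_pt k0 :))
  have hlen : ∀ ψ, (bits ψ).length = cn (2 * nvars ψ) d := fun ψ => by
    simp only [bits, List.length_map, length_cands, length_lits]
  refine ⟨fun y => bif valid y then true :: bits (p y) else [false],
    PT.cond hvalid (PT.cons (PT.const true) (PT.comp hbits hp)) (PT.const _), ?_, ?_⟩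
  · rintro y y' h ⟨φ, rfl, hw, hs⟩
    have e : bitEncode φ = enc φ := rfl
    have h1 : valid (enc φ) = true := (hv _).2 (by rw [ep]; exact ⟨rfl, hw⟩)
    simp only [e, h1, ep, cond_true] at h
    cases h2 : valid y'
    · simp [h2] at h
    simp only [h2, cond_true, List.cons.injEq, true_and] at h
    obtain ⟨h3, h4⟩ := (hv _).1 h2
    have h5 : nvars φ = nvars (p y') := by
      have h6 := congrArg List.length h
      rw [hlen, hlen] at h6
      obtain ⟨d', rfl⟩ : ∃ d', d = d' + 1 := ⟨d - 1, by omega⟩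
      rcases lt_trichotomy (nvars φ) (nvars (p y')) with h7 | h7 | h7
      · have := cn_lt (show 2 * nvars φ < 2 * nvars (p y') by omega) d'; omega
      · exact h7
      · have := cn_lt (show 2 * nvars (p y') < 2 * nvars φ by omega) d'; omega
    simp only [bits, h5] at h
    refine ⟨p y', h3, h4, (sat_canon _).1 ?_⟩
    obtain ⟨a, ha⟩ := (sat_canon _).2 hs
    refine ⟨a, fun C hC => ha C ?_⟩
    have h6 : C ∈ cands (lits (nvars (p y'))) d := by
      obtain ⟨D, hD, rfl⟩ := List.mem_map.1 hC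
      refine mem_cands d _ (by simpa using h4 D hD) fun l hl => ?_
      obtain ⟨l', hl', rfl⟩ := List.mem_map.1 hl
      exact mem_lits (rank_lt (mem_vars hD hl'))
    have h7 := List.map_inj_left.1 h C h6
    simpa [hC] using h7
  · intro y n₀ hn
    cases h2 : valid y
    · simp [h2]
    have h3 := hn _ ((hv _).1 h2).1
    have h4 := (cn_mono (show 2 * nvars (p y) ≤ 2 * n₀ by omega) d).trans (cn_le _ d)
    simp only [h2, cond_true, List.length_cons, hlen]
    omega

end Pool.Agent.Lib.MP_ddf912_lc.Pig
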